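import Pool.Agent.Q218.HB.Stm

/-!
# Project HB: jobs PT and NEU
-/

set_option autoImplicit false

open MeasureTheory

namespace Pool.Agent.Q265.HB

open Pool.Agent.Q218.HB

lemma Hm_split {Λ : Type} [Fintype Λ] [DecidableEq Λ] (h : Λ → Λ → ℝ) (V : Λ → ℝ) :
    Hm h V = Hm h (fun _ => 0) + Matrix.diagonal (fun x => (V x : ℂ)) := by
  ext x y
  simp only [Hm, Matrix.add_apply, Matrix.diagonal_apply]
  split_ifs <;> simp

/-- the resolvent identity `G₀ = G + G V G₀` -/
lemma res (hI : S_INV) {Λ : Type} [Fintype Λ] [DecidableEq Λ] (h : Λ → Λ → ℝ) (V : Λ → ℝ) (z : ℂ)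
    (hs : ∀ x y, h x y = h y x) (hz : z.im ≠ 0) :
    G h (fun _ => 0) z = G h V z +
      G h V z * Matrix.diagonal (fun x => (V x : ℂ)) * G h (fun _ => 0) z := by
  obtain ⟨_, h2, _⟩ := hI Λ h V z hs hz
  obtain ⟨h3, _, _⟩ := hI Λ h (fun _ => 0) z hs hz
  calc G h (fun _ => 0) z = (G h V z * (Hm h V - z • (1 : Matrix Λ Λ ℂ))) * G h (fun _ => 0) z := by
        rw [h2, one_mul]
    _ = G h V z * ((Hm h (fun _ => 0) - z • (1 : Matrix Λ Λ ℂ)) * G h (fun _ => 0) z) +
        G h V z * Matrix.diagonal (fun x => (V x : ℂ)) * G h (fun _ => 0) z := by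
        rw [Hm_split h V]
        noncomm_ring
    _ = _ := by rw [h3, mul_one]

theorem neu : S_INV → S_OPB → S_NEU := by
  intro hI hO Λ _ _ h V z M hs hz hV hM b
  have hM0 : 0 ≤ M := (abs_nonneg _).trans (hV b)
  have hr := res hI h V z hs hz.ne'
  set f : Λ → ℂ := fun y => (V y : ℂ) * G h (fun _ => 0) z y b with hf
  have hrx : ∀ x, G h V z x b = G h (fun _ => 0) z x b - ∑ y, G h V z x y * f y := by
    intro x
    have h1 : G h (fun _ => 0) z x b = (G h V z +
      G h V z * Matrix.diagonal (fun x => (V x : ℂ)) * G h (fun _ => 0) z) x b :=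
      congrFun (congrFun hr x) b
    rw [Matrix.add_apply, Matrix.mul_apply] at h1
    have h2 : ∑ j, (G h V z * Matrix.diagonal (fun x => (V x : ℂ))) x j * G h (fun _ => 0) z j b =
        ∑ y, G h V z x y * f y := by
      refine Finset.sum_congr rfl fun y _ => ?_
      rw [Matrix.mul_diagonal, hf]
      ring
    rw [h2] at h1
    linear_combination -h1
  have hop := hO Λ h V z hs hz f
  have hfb : ∑ y, ‖f y‖ ^ 2 ≤ M ^ 2 * ∑ y, ‖G h (fun _ => 0) z y b‖ ^ 2 := by
    rw [Finset.mul_sum]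
    refine Finset.sum_le_sum fun y _ => ?_
    have h1 : ‖f y‖ = |V y| * ‖G h (fun _ => 0) z y b‖ := by
      rw [hf]
      simp only [norm_mul, Complex.norm_real, Real.norm_eq_abs]
    rw [h1, mul_pow]
    exact mul_le_mul_of_nonneg_right (pow_le_pow_left₀ (abs_nonneg _) (hV y) 2) (by positivity)
  set S0 := ∑ y, ‖G h (fun _ => 0) z y b‖ ^ 2 with hS0
  have hS00 : 0 ≤ S0 := Finset.sum_nonneg fun _ _ => by positivity
  have hc : ∑ x, ‖∑ y, G h V z x y * f y‖ ^ 2 ≤ 1 / 4 * S0 := by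
    refine hop.trans ?_
    rw [div_le_iff₀ (by positivity)]
    refine hfb.trans ?_
    have h3 : (2 * M) ^ 2 ≤ z.im ^ 2 := pow_le_pow_left₀ (by positivity) hM 2
    nlinarith
  calc ∑ x, ‖G h V z x b‖ ^ 2 ≤ ∑ x, (3 / 2 * ‖G h (fun _ => 0) z x b‖ ^ 2 +
        3 * ‖∑ y, G h V z x y * f y‖ ^ 2) := by
        refine Finset.sum_le_sum fun x _ => ?_
        rw [hrx x]
        have h4 := norm_sub_le (G h (fun _ => 0) z x b) (∑ y, G h V z x y * f y)
        have h5 : ‖G h (fun _ => 0) z x b - ∑ y, G h V z x y * f y‖ ^ 2 ≤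
          (‖G h (fun _ => 0) z x b‖ + ‖∑ y, G h V z x y * f y‖) ^ 2 :=
          pow_le_pow_left₀ (norm_nonneg _) h4 2
        nlinarith [sq_nonneg (‖G h (fun _ => 0) z x b‖ - 2 * ‖∑ y, G h V z x y * f y‖)]
    _ = 3 / 2 * S0 + 3 * ∑ x, ‖∑ y, G h V z x y * f y‖ ^ 2 := by
        rw [Finset.sum_add_distrib, ← Finset.mul_sum, ← Finset.mul_sum]
    _ ≤ 9 / 4 * S0 := by linarith

/-- `G₀* = G + G₀* V G - (z - z̄) G₀* G` -/
lemma resStar (hI : S_INV) {Λ : Type} [Fintype Λ] [DecidableEq Λ] (h : Λ → Λ → ℝ) (V : Λ → ℝ)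
    (z : ℂ) (hs : ∀ x y, h x y = h y x) (hz : z.im ≠ 0) :
    (G h (fun _ => 0) z).conjTranspose = G h V z +
      (G h (fun _ => 0) z).conjTranspose * Matrix.diagonal (fun x => (V x : ℂ)) * G h V z -
      (z - (starRingEnd ℂ) z) • ((G h (fun _ => 0) z).conjTranspose * G h V z) := by
  obtain ⟨h1, _, _⟩ := hI Λ h V z hs hz
  obtain ⟨h3, _, _⟩ := hI Λ h (fun _ => 0) z hs hz
  have hH : (Hm h (fun _ => 0)).conjTranspose = Hm h (fun _ => 0) := by
    ext x y
    simp only [Hm, Matrix.conjTranspose_apply]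
    by_cases hxy : x = y
    · subst hxy; simp
    · rw [if_neg hxy, if_neg (Ne.symm hxy), hs x y]; simp
  have h4 : (G h (fun _ => 0) z).conjTranspose *
      (Hm h (fun _ => 0) - (starRingEnd ℂ) z • (1 : Matrix Λ Λ ℂ)) = 1 := by
    have h5 := congrArg Matrix.conjTranspose h3
    rw [Matrix.conjTranspose_mul, Matrix.conjTranspose_sub, hH, Matrix.conjTranspose_smul,
      Matrix.conjTranspose_one] at h5
    exact h5
  calc (G h (fun _ => 0) z).conjTranspose = (G h (fun _ => 0) z).conjTranspose *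
        ((Hm h V - z • (1 : Matrix Λ Λ ℂ)) * G h V z) := by rw [h1, mul_one]
    _ = ((G h (fun _ => 0) z).conjTranspose *
        (Hm h (fun _ => 0) - (starRingEnd ℂ) z • (1 : Matrix Λ Λ ℂ))) * G h V z +
      (G h (fun _ => 0) z).conjTranspose * Matrix.diagonal (fun x => (V x : ℂ)) * G h V z -
      (z - (starRingEnd ℂ) z) • ((G h (fun _ => 0) z).conjTranspose * G h V z) := by
        rw [Hm_split h V]
        simp only [sub_mul, mul_sub, add_mul, mul_add, smul_mul_assoc, mul_smul_comm, one_mul,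
          mul_one, mul_assoc, sub_smul]
        abel
    _ = _ := by rw [h4, one_mul]

theorem pt : S_INV → S_WARD → S_PT := by
  intro hI hW Λ _ _ h V z hs hz b
  obtain ⟨_, _, hsy⟩ := hI Λ h V z hs hz.ne'
  obtain ⟨_, _, hsy0⟩ := hI Λ h (fun _ => 0) z hs hz.ne'
  have w1 : ∑ x, ‖G h V z x b‖ ^ 2 = (G h V z b b).im / z.im := by
    rw [← hW Λ h V z hs hz b]
    exact Finset.sum_congr rfl fun x _ => by rw [hsy]
  have w0 : ∑ x, ‖G h (fun _ => 0) z x b‖ ^ 2 = (G h (fun _ => 0) z b b).im / z.im := by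
    rw [← hW Λ h (fun _ => 0) z hs hz b]
    exact Finset.sum_congr rfl fun x _ => by rw [hsy0]
  have hr := congrFun (congrFun (resStar hI h V z hs hz.ne') b) b
  rw [Matrix.sub_apply, Matrix.add_apply, Matrix.smul_apply, Matrix.mul_apply, Matrix.mul_apply,
    Matrix.conjTranspose_apply] at hr
  have e1 : ∑ j, ((G h (fun _ => 0) z).conjTranspose *
      Matrix.diagonal (fun x => (V x : ℂ))) b j * G h V z j b =
      ∑ x, (starRingEnd ℂ) (G h (fun _ => 0) z x b) * (V x : ℂ) * G h V z x b := by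
    refine Finset.sum_congr rfl fun x _ => ?_
    rw [Matrix.mul_diagonal, Matrix.conjTranspose_apply]
    rfl
  have e2 : ∑ j, (G h (fun _ => 0) z).conjTranspose b j * G h V z j b =
      ∑ x, (starRingEnd ℂ) (G h (fun _ => 0) z x b) * G h V z x b := by
    refine Finset.sum_congr rfl fun x _ => ?_
    rw [Matrix.conjTranspose_apply]
    rfl
  rw [e1, e2] at hr
  set W := ∑ x, (starRingEnd ℂ) (G h (fun _ => 0) z x b) * (V x : ℂ) * G h V z x b with hWd
  set I := ∑ x, (starRingEnd ℂ) (G h (fun _ => 0) z x b) * G h V z x b with hId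
  have him := congrArg Complex.im hr
  have hzz : z - (starRingEnd ℂ) z = ((2 * z.im : ℝ) : ℂ) * Complex.I := by
    apply Complex.ext <;> simp; ring
  rw [hzz] at him
  have h6 : (star (G h (fun _ => 0) z b b)).im = -(G h (fun _ => 0) z b b).im := by
    exact Complex.conj_im _
  rw [h6] at him
  have h7 : (G h V z b b + W - (((2 * z.im : ℝ) : ℂ) * Complex.I) • I).im =
      (G h V z b b).im + W.im - 2 * z.im * I.re := by
    simp only [Complex.sub_im, Complex.add_im, smul_eq_mul, Complex.mul_im, Complex.mul_re,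
      Complex.ofReal_re, Complex.ofReal_im, Complex.I_re, Complex.I_im]
    ring
  rw [h7] at him
  have hsum : ∑ x, ‖G h V z x b - G h (fun _ => 0) z x b‖ ^ 2 =
      ∑ x, ‖G h V z x b‖ ^ 2 + ∑ x, ‖G h (fun _ => 0) z x b‖ ^ 2 - 2 * I.re := by
    rw [hId, Complex.re_sum, Finset.mul_sum, ← Finset.sum_add_distrib, ← Finset.sum_sub_distrib]
    refine Finset.sum_congr rfl fun x _ => ?_
    rw [Complex.sq_norm, Complex.sq_norm, Complex.sq_norm, Complex.normSq_sub]
    simp only [Complex.mul_re, Complex.conj_re, Complex.conj_im]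
    ring
  rw [hsum, w1, w0]
  field_simp
  linarith

end Pool.Agent.Q265.HB
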